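import Pool.Agent.K4U.Fact

/-!
The invariant is kept by the blocks.
-/

open Finset

namespace Pool.Agent.TwoDens.K4U

theorem two_bits {p q : Bool} (h : p.toNat + q.toNat = 2) : p = true ∧ q = true := by
  revert h
  cases p <;> cases q <;> decide

theorem arithA {ε v : ℝ} {N E n e : ℕ} {p q P Q : Bool} (t0 : 0 ≤ ε) (t1 : ε ≤ 1 / 11)
    (v1 : v ≤ 1 - 9 * ε) (hf : factA (p.toNat + q.toNat) n e P Q = true)
    (hp : Pre ε v N E p q) (hN : 2 ≤ N + n) :
    Inv ε (v + 7 * ε) (N + n) (E + e) P Q := by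
  simp only [factA, Bool.and_eq_true, decide_eq_true_eq, Bool.or_eq_true, Bool.not_eq_true',
    Bool.and_eq_false_imp, decide_eq_false_iff_not] at hf
  obtain ⟨⟨⟨⟨⟨a1, a2⟩, a3⟩, a4⟩, a5⟩, _⟩ := hf
  have a1R : (n : ℝ) ≤ 7 := by exact_mod_cast a1
  have a2R : (e : ℝ) ≤ 2 * n := by exact_mod_cast a2
  have n0 : (0 : ℝ) ≤ n := Nat.cast_nonneg _
  have p1 : 0 ≤ ε * n := mul_nonneg t0 n0
  have p2 : 0 ≤ (1 / 11 - ε) * (7 - n) := mul_nonneg (by linarith) (by linarith)
  unfold Inv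
  push_cast
  rcases hp with ⟨h2, i1, i2⟩ | ⟨h1, he, hq⟩ | ⟨h0, he, hq⟩
  · refine ⟨by linarith, ?_⟩
    intro hP hQ
    obtain ⟨k1, k2⟩ := a3.resolve_left (by rw [hP, hQ]; decide)
    have k1R : 11 * (e : ℝ) + 7 ≤ 23 * n := by exact_mod_cast k1
    rcases k2 with k2 | k2
    · have := i2 (two_bits k2).1 (two_bits k2).2
      linarith
    · have k2R : (e : ℝ) + 1 ≤ 2 * n := by exact_mod_cast k2
      linarith
  · obtain ⟨g1, g2⟩ := a4.resolve_left (by omega)
    rw [h1, he]
    push_cast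
    have n1 : (1 : ℝ) ≤ n := by
      have : 1 ≤ n := by omega
      exact_mod_cast this
    have p4 : 0 ≤ ε * (n - 1) := mul_nonneg t0 (by linarith)
    have g1R : (e : ℝ) + 1 ≤ 2 * n := by
      have := g1.resolve_left (by omega)
      exact_mod_cast this
    refine ⟨by linarith, ?_⟩
    intro hP hQ
    have k1 := g2.resolve_left (by rw [hP, hQ]; decide)
    have k1R : (e : ℝ) + 2 ≤ 2 * n := by exact_mod_cast k1
    linarith
  · obtain ⟨g1, g2⟩ := a5.resolve_left (by omega)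
    rw [h0, he]
    push_cast
    have n1 : (2 : ℝ) ≤ n := by
      have : 2 ≤ n := by omega
      exact_mod_cast this
    have p4 : 0 ≤ ε * (n - 2) := mul_nonneg t0 (by linarith)
    have g1R : (e : ℝ) + 3 ≤ 2 * n := by
      have := g1.resolve_left (by omega)
      exact_mod_cast this
    refine ⟨by linarith, ?_⟩
    intro hP hQ
    have k1 := g2.resolve_left (by rw [hP, hQ]; decide)
    have k1R : (e : ℝ) + 4 ≤ 2 * n := by exact_mod_cast k1
    linarith

theorem arithB {ε v : ℝ} {N E n e : ℕ} {p q P Q : Bool} (t0 : 0 ≤ ε) (t1 : ε ≤ 1 / 11)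
    (v0 : 1 - 9 * ε ≤ v) (v1 : v ≤ 1 - 2 * ε) (hf : factB (p.toNat + q.toNat) n e P Q = true)
    (hp : Pre ε v N E p q) (hN : 2 ≤ N + n) :
    Inv ε (v - 1 + 11 * ε) (N + n) (E + e) P Q := by
  simp only [factB, Bool.and_eq_true, decide_eq_true_eq, Bool.or_eq_true, Bool.not_eq_true',
    Bool.and_eq_false_imp, decide_eq_false_iff_not] at hf
  obtain ⟨⟨⟨⟨⟨⟨⟨a1, a2⟩, a3⟩, a4⟩, a5⟩, a6⟩, a7⟩, _⟩ := hf
  have a1R : (n : ℝ) ≤ 11 := by exact_mod_cast a1
  have a2R : 11 * (e : ℝ) ≤ 23 * n + 2 := by exact_mod_cast a2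
  have a3R : (e : ℝ) ≤ 2 * n + 1 := by exact_mod_cast a3
  have n0 : (0 : ℝ) ≤ n := Nat.cast_nonneg _
  have p1 : 0 ≤ ε * n := mul_nonneg t0 n0
  have p2 : 0 ≤ (1 / 11 - ε) * (11 - n) := mul_nonneg (by linarith) (by linarith)
  have p3 : 0 ≤ (1 / 11 - ε) * n := mul_nonneg (by linarith) n0
  unfold Inv
  push_cast
  rcases hp with ⟨h2, i1, i2⟩ | ⟨h1, he, hq⟩ | ⟨h0, he, hq⟩
  · refine ⟨?_, ?_⟩
    · rcases a4 with a4 | a4
      · have i3 := i2 (two_bits a4).1 (two_bits a4).2
        rcases Nat.lt_or_ge n 9 with h9 | h9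
        · have n9 : (n : ℝ) ≤ 9 := by
            have : n ≤ 9 := by omega
            exact_mod_cast this
          have p4 : 0 ≤ (1 / 11 - ε) * (9 - n) := mul_nonneg (by linarith) (by linarith)
          linarith
        · have n9 : (9 : ℝ) ≤ n := by exact_mod_cast h9
          have p4 : 0 ≤ ε * (n - 9) := mul_nonneg t0 (by linarith)
          linarith
      · have a4R : (e : ℝ) ≤ 2 * n := by exact_mod_cast a4
        linarith
    · intro hP hQ
      obtain ⟨k1, k2⟩ := a5.resolve_left (by rw [hP, hQ]; decide)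
      have k1R : 11 * (e : ℝ) ≤ 23 * n := by exact_mod_cast k1
      rcases k2 with k2 | k2
      · have := i2 (two_bits k2).1 (two_bits k2).2
        linarith
      · have k2R : 11 * (e : ℝ) + 9 ≤ 23 * n := by exact_mod_cast k2
        rcases a4 with a4 | a4
        · have := i2 (two_bits a4).1 (two_bits a4).2
          linarith
        · have a4R : (e : ℝ) ≤ 2 * n := by exact_mod_cast a4
          rcases Nat.lt_or_ge n 9 with h9 | h9
          · have n9 : (n : ℝ) ≤ 9 := by
              have : n ≤ 9 := by omega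
              exact_mod_cast this
            have p4 : 0 ≤ (1 / 11 - ε) * (9 - n) := mul_nonneg (by linarith) (by linarith)
            linarith
          · have n9 : (9 : ℝ) ≤ n := by exact_mod_cast h9
            have p4 : 0 ≤ ε * (n - 9) := mul_nonneg t0 (by linarith)
            linarith
  · obtain ⟨g1, g2⟩ := a6.resolve_left (by omega)
    rw [h1, he]
    push_cast
    have n1 : (1 : ℝ) ≤ n := by
      have : 1 ≤ n := by omega
      exact_mod_cast this
    have p4 : 0 ≤ ε * (n - 1) := mul_nonneg t0 (by linarith)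
    have g1R : (e : ℝ) + 1 ≤ 2 * n := by
      have := g1.resolve_left (by omega)
      exact_mod_cast this
    refine ⟨by linarith, ?_⟩
    intro hP hQ
    have k1 := g2.resolve_left (by rw [hP, hQ]; decide)
    have k1R : 11 * (e : ℝ) + 21 ≤ 23 * n := by exact_mod_cast k1
    rcases Nat.lt_or_ge n 10 with h9 | h9
    · have n9 : (n : ℝ) ≤ 10 := by
        have : n ≤ 10 := by omega
        exact_mod_cast this
      have p4 : 0 ≤ (1 / 11 - ε) * (10 - n) := mul_nonneg (by linarith) (by linarith)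
      linarith
    · have n9 : (10 : ℝ) ≤ n := by exact_mod_cast h9
      have p4 : 0 ≤ ε * (n - 10) := mul_nonneg t0 (by linarith)
      linarith
  · obtain ⟨g1, g2⟩ := a7.resolve_left (by omega)
    rw [h0, he]
    push_cast
    have n1 : (2 : ℝ) ≤ n := by
      have : 2 ≤ n := by omega
      exact_mod_cast this
    have p4 : 0 ≤ ε * (n - 2) := mul_nonneg t0 (by linarith)
    have g1R : (e : ℝ) + 3 ≤ 2 * n := by
      have := g1.resolve_left (by omega)
      exact_mod_cast this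
    refine ⟨by linarith, ?_⟩
    intro hP hQ
    have k1 := g2.resolve_left (by rw [hP, hQ]; decide)
    have k1R : 11 * (e : ℝ) + 44 ≤ 23 * n := by exact_mod_cast k1
    linarith

theorem arithC {ε v : ℝ} {N E n e : ℕ} {p q : Bool} (t0 : 0 ≤ ε) (t1 : ε ≤ 1 / 11)
    (v0 : 1 - 9 * ε ≤ v) (hf : factC (p.toNat + q.toNat) n e = true)
    (hp : Pre ε v N E p q) (hN : 2 ≤ N + n) :
    3 + 2 * ε ≤ (2 + ε) * ((N + n : ℕ) : ℝ) - ((E + e : ℕ) : ℝ) := by
  simp only [factC, Bool.and_eq_true, decide_eq_true_eq, Bool.or_eq_true, Bool.not_eq_true',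
    decide_eq_false_iff_not] at hf
  obtain ⟨⟨⟨⟨⟨⟨a1, a2⟩, a3⟩, a4⟩, a6⟩, a7⟩, _⟩ := hf
  have a1R : (n : ℝ) ≤ 9 := by exact_mod_cast a1
  have a2R : 11 * (e : ℝ) ≤ 23 * n + 2 := by exact_mod_cast a2
  have n0 : (0 : ℝ) ≤ n := Nat.cast_nonneg _
  have p1 : 0 ≤ ε * n := mul_nonneg t0 n0
  have p4 : 0 ≤ (1 / 11 - ε) * (9 - n) := mul_nonneg (by linarith) (by linarith)
  push_cast
  rcases hp with ⟨h2, i1, i2⟩ | ⟨h1, he, hq⟩ | ⟨h0, he, hq⟩
  · rcases a4 with a4 | a4
    · have i3 := i2 (two_bits a4).1 (two_bits a4).2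
      linarith
    · have a4R : (e : ℝ) ≤ 2 * n := by exact_mod_cast a4
      linarith
  · have g1 := a6.resolve_left (by omega)
    rw [h1, he]
    push_cast
    have n1 : (1 : ℝ) ≤ n := by
      have : 1 ≤ n := by omega
      exact_mod_cast this
    have p4 : 0 ≤ ε * (n - 1) := mul_nonneg t0 (by linarith)
    have g1R : (e : ℝ) + 1 ≤ 2 * n := by
      have := g1.resolve_left (by omega)
      exact_mod_cast this
    linarith
  · have g1 := a7.resolve_left (by omega)
    rw [h0, he]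
    push_cast
    have n1 : (2 : ℝ) ≤ n := by
      have : 2 ≤ n := by omega
      exact_mod_cast this
    have p4 : 0 ≤ ε * (n - 2) := mul_nonneg t0 (by linarith)
    have g1R : (e : ℝ) + 3 ≤ 2 * n := by
      have := g1.resolve_left (by omega)
      exact_mod_cast this
    linarith

end Pool.Agent.TwoDens.K4U
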