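import Pool.Agent.K4U.Part

/-!
The three kinds of blocks: the counts and the facts checked over all cases.
-/

open Finset

namespace Pool.Agent.TwoDens.K4U

/-- new vertices of the first kind of block -/
def aN (x0 x1 x2 x3 x4 x5 x6 : Bool) : ℕ :=
  x0.toNat + x1.toNat + x2.toNat + x3.toNat + x4.toNat + x5.toNat + x6.toNat

/-- new edges of the first kind of block -/
def aE (p q x0 x1 x2 x3 x4 x5 x6 : Bool) : ℕ :=
  x0.toNat * (p.toNat + q.toNat) + x1.toNat * (p.toNat + q.toNat) + x2.toNat * x0.toNat +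
    x3.toNat * (p.toNat + q.toNat) + x4.toNat * (x0.toNat + x2.toNat) +
    x5.toNat * (x1.toNat + x2.toNat) + x6.toNat * (x1.toNat + x2.toNat + x5.toNat)

/-- new vertices of the second kind of block -/
def bN (x0 x1 x2 x3 x4 x5 x6 x7 x8 x9 y : Bool) : ℕ :=
  x0.toNat + x1.toNat + x2.toNat + x3.toNat + x4.toNat + x5.toNat + x6.toNat + x7.toNat +
    x8.toNat + x9.toNat + y.toNat

/-- new edges of the second kind of block -/
def bE (p q x0 x1 x2 x3 x4 x5 x6 x7 x8 x9 y : Bool) : ℕ :=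
  x0.toNat * q.toNat + x1.toNat * (p.toNat + q.toNat + x0.toNat) +
    x2.toNat * (p.toNat + q.toNat) + x3.toNat * (x0.toNat + x1.toNat) + x4.toNat * p.toNat +
    x5.toNat * (x4.toNat + p.toNat) + x6.toNat * (x4.toNat + x5.toNat + x0.toNat) +
    x7.toNat * (x4.toNat + x5.toNat) + x8.toNat * (x6.toNat + x0.toNat) +
    x9.toNat * (x7.toNat + x8.toNat) + y.toNat * (x7.toNat + x8.toNat + x9.toNat)

/-- new vertices of the last block -/
def cN (x0 x1 x2 x3 x4 x5 x6 x7 x8 : Bool) : ℕ :=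
  x0.toNat + x1.toNat + x2.toNat + x3.toNat + x4.toNat + x5.toNat + x6.toNat + x7.toNat +
    x8.toNat

/-- new edges of the last block -/
def cE (p q x0 x1 x2 x3 x4 x5 x6 x7 x8 : Bool) : ℕ :=
  x0.toNat * (p.toNat + q.toNat) + x1.toNat * (p.toNat + q.toNat) + x2.toNat * x0.toNat +
    x3.toNat * (p.toNat + q.toNat) + x4.toNat * (x0.toNat + x2.toNat) +
    x5.toNat * (x1.toNat + x2.toNat) + x6.toNat * (x1.toNat + x2.toNat + x5.toNat) +
    x7.toNat * (x3.toNat + x4.toNat) + x8.toNat * (x3.toNat + x4.toNat + x7.toNat)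

/-- facts about the first kind of block -/
def factA (m n e : ℕ) (P Q : Bool) : Bool :=
  decide (n ≤ 7) && decide (e ≤ 2 * n) &&
  (!(P && Q) || (decide (11 * e + 7 ≤ 23 * n) && (decide (m = 2) || decide (e + 1 ≤ 2 * n)))) &&
  (!(decide (m ≤ 1)) || ((decide (n = 0) || decide (e + 1 ≤ 2 * n)) &&
    (!(P && Q) || decide (e + 2 ≤ 2 * n)))) &&
  (!(decide (m = 0)) || ((decide (n ≤ 1) || decide (e + 3 ≤ 2 * n)) &&
    (!(P && Q) || decide (e + 4 ≤ 2 * n)))) &&
  (!(decide (e = 0)) || (decide (n ≤ 3) && (P || Q || decide (n ≤ 2)) &&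
    (decide (m = 0) || (decide (n ≤ 2) && (P || Q || decide (n ≤ 1))))))

/-- facts about the second kind of block -/
def factB (m n e : ℕ) (P Q : Bool) : Bool :=
  decide (n ≤ 11) && decide (11 * e ≤ 23 * n + 2) && decide (e ≤ 2 * n + 1) &&
  (decide (m = 2) || decide (e ≤ 2 * n)) &&
  (!(P && Q) || (decide (11 * e ≤ 23 * n) && (decide (m = 2) || decide (11 * e + 9 ≤ 23 * n)))) &&
  (!(decide (m ≤ 1)) || ((decide (n = 0) || decide (e + 1 ≤ 2 * n)) &&
    (!(P && Q) || decide (11 * e + 21 ≤ 23 * n)))) &&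
  (!(decide (m = 0)) || ((decide (n ≤ 1) || decide (e + 3 ≤ 2 * n)) &&
    (!(P && Q) || decide (11 * e + 44 ≤ 23 * n)))) &&
  (!(decide (e = 0)) || (decide (n ≤ 4) && (P || Q || decide (n ≤ 3)) &&
    (decide (m = 0) || (decide (n ≤ 3) && (P || Q || decide (n ≤ 2))))))

/-- facts about the last block -/
def factC (m n e : ℕ) : Bool :=
  decide (n ≤ 9) && decide (11 * e ≤ 23 * n + 2) && decide (e ≤ 2 * n + 1) &&
  (decide (m = 2) || decide (e ≤ 2 * n)) &&
  (!(decide (m ≤ 1)) || (decide (n = 0) || decide (e + 1 ≤ 2 * n))) &&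
  (!(decide (m = 0)) || (decide (n ≤ 1) || decide (e + 3 ≤ 2 * n))) &&
  (!(decide (e = 0)) || (decide (n ≤ 3) && (decide (m = 0) || decide (n ≤ 2))))

theorem afact : ∀ p q x0 x1 x2 x3 x4 x5 x6 : Bool,
    factA (p.toNat + q.toNat) (aN x0 x1 x2 x3 x4 x5 x6) (aE p q x0 x1 x2 x3 x4 x5 x6) x3 x4 =
      true := by
  decide

theorem cfact : ∀ p q x0 x1 x2 x3 x4 x5 x6 x7 x8 : Bool,
    factC (p.toNat + q.toNat) (cN x0 x1 x2 x3 x4 x5 x6 x7 x8)
      (cE p q x0 x1 x2 x3 x4 x5 x6 x7 x8) = true := by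
  decide

end Pool.Agent.TwoDens.K4U
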