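import Pool.Agent.K4U.Fact

/-!
The second kind of block: all cases.
-/

namespace Pool.Agent.TwoDens.K4U

theorem bfact : ∀ p q x0 x1 x2 x3 x4 x5 x6 x7 x8 x9 y : Bool,
    factB (p.toNat + q.toNat) (bN x0 x1 x2 x3 x4 x5 x6 x7 x8 x9 y)
      (bE p q x0 x1 x2 x3 x4 x5 x6 x7 x8 x9 y) x2 x3 = true := by
  decide

end Pool.Agent.TwoDens.K4U
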