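import Pool.Agent.K3U.Part

/-!
Partial chains with a pair of vertices as interface (level two).
-/

open Finset

namespace Pool.Agent.TwoDens.K4U

open Pool.Agent.TwoDens Pool.Agent.TwoDens.K3U

/-- The invariant: `N` vertices and `E` edges in the part of the set seen so far, `p`, `q` tell
which of the two vertices with later neighbours are in the set. -/
def Inv (ε v : ℝ) (N E : ℕ) (p q : Bool) : Prop :=
  3 + 2 * ε ≤ (2 + ε) * N - E ∧ (p = true → q = true → 3 + 2 * ε + v ≤ (2 + ε) * N - E)

/-- the possible situations before a block -/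
def Pre (ε v : ℝ) (N E : ℕ) (p q : Bool) : Prop :=
  (2 ≤ N ∧ Inv ε v N E p q) ∨ (N = 1 ∧ E = 0 ∧ p.toNat + q.toNat ≤ 1) ∨
    (N = 0 ∧ E = 0 ∧ p.toNat + q.toNat = 0)

/-- partial chains -/
def PC (ε : ℝ) (n al : ℕ) (v : ℝ) : Prop :=
  ∃ (T : ℕ → List ℕ) (p q : ℕ), (p < n ∧ q < n ∧ p ≠ q) ∧
    (∀ x < n, ∀ u ∈ T x, u < x) ∧
    (∀ s : ℕ → Bool, 2 ≤ cn s n → Inv ε v (cn s n) (en T s n) (s p) (s q)) ∧
    (∀ s : ℕ → Bool, en T s n = 0 → cn s n ≤ al + 1 ∧
      (s p = false → s q = false → cn s n ≤ al))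

theorem pre_of {ε v : ℝ} {n : ℕ} {T : ℕ → List ℕ} {p q : ℕ}
    (h1 : p < n ∧ q < n ∧ p ≠ q)
    (h2 : ∀ x < n, ∀ u ∈ T x, u < x)
    (h3 : ∀ s : ℕ → Bool, 2 ≤ cn s n → Inv ε v (cn s n) (en T s n) (s p) (s q))
    (s : ℕ → Bool) : Pre ε v (cn s n) (en T s n) (s p) (s q) := by
  obtain ⟨hp, hq, hpq⟩ := h1
  rcases Nat.lt_or_ge (cn s n) 2 with h | h
  · right
    have he := en_zero h2 (by omega : cn s n ≤ 1)
    have f1 : s p = true → s q = true → False := fun x y => by
      have := two_le hp hq hpq x y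
      omega
    have g1 : s p = true → 1 ≤ cn s n := one_le hp
    have g2 : s q = true → 1 ≤ cn s n := one_le hq
    rcases Nat.eq_zero_or_pos (cn s n) with h0 | h0
    · right
      refine ⟨h0, he, ?_⟩
      cases sp : s p with
      | true => exact absurd (g1 sp) (by omega)
      | false =>
        cases sq : s q with
        | true => exact absurd (g2 sq) (by omega)
        | false => rfl
    · left
      refine ⟨by omega, he, ?_⟩
      cases sp : s p with
      | true =>
        cases sq : s q with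
        | true => exact (f1 sp sq).elim
        | false => decide
      | false =>
        cases sq : s q with
        | true => decide
        | false => decide
  · left
    exact ⟨h, h3 s h⟩

theorem PC.congr {ε v v' : ℝ} {n n' al al' : ℕ} (h : PC ε n al v) (hn : n = n') (ha : al = al')
    (hv : v = v') : PC ε n' al' v' := by
  rw [← hn, ← ha, ← hv]
  exact h

/-- the graph of the lists as a piece -/
theorem pc_of {D : ℝ} {n al : ℕ} (T : ℕ → List ℕ) (h2 : ∀ x < n, ∀ u ∈ T x, u < x)
    (h3 : ∀ s : ℕ → Bool, 2 ≤ cn s n → 2 * D - 1 ≤ D * (cn s n : ℝ) - (en T s n : ℝ))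
    (h4 : ∀ s : ℕ → Bool, en T s n = 0 → cn s n ≤ al) : K3S.Pc D n al := by
  refine K3S.Pc.ofNat (gr T) ?_ ?_
  · intro S hS hI
    rw [← cn_eq hS]
    refine h4 _ ?_
    refine sum_eq_zero ?_
    intro x hx
    by_cases hxS : x ∈ S
    · rw [ls_zero, mul_zero]
      intro u hu
      have hux := h2 x (mem_range.1 hx) u hu
      refine decide_eq_false ?_
      intro huS
      exact hI hxS huS (by omega) (Or.inl ⟨hux, hu⟩)
    · show (decide (x ∈ S)).toNat * _ = 0
      rw [decide_eq_false hxS]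
      exact zero_mul _
  · intro S hS hc
    have h5 := e2_le (T := T) (S := S) n
    have h6 : S.filter (· < n) = S := by
      rw [filter_eq_self]
      intro x hx
      exact mem_range.1 (hS hx)
    rw [h6] at h5
    have h7 := h3 (fun x => decide (x ∈ S)) (by rw [cn_eq hS]; exact hc)
    rw [cn_eq hS] at h7
    have h8 : (e2 (gr T) S : ℝ) ≤ 2 * (en T (fun x => decide (x ∈ S)) n : ℝ) := by
      exact_mod_cast h5
    linarith

end Pool.Agent.TwoDens.K4U
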