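import Pool.Agent.K4U.Arith

/-!
Partial chains are extended by blocks.
-/

open Finset

namespace Pool.Agent.TwoDens.K4U

open Pool.Agent.TwoDens Pool.Agent.TwoDens.K3U

theorem PC.stepA {ε v : ℝ} {n al : ℕ} (h : PC ε n al v) (t0 : 0 ≤ ε) (t1 : ε ≤ 1 / 11)
    (v1 : v ≤ 1 - 9 * ε) : PC ε (n + 7) (al + 2) (v + 7 * ε) := by
  obtain ⟨T, p, q, h1, h2, h3, h4⟩ := h
  obtain ⟨L, hL⟩ : ∃ L : List (List ℕ), L = [[p, q], [p, q], [n], [p, q], [n, n + 2], [n + 1, n + 2], [n + 1, n + 2, n + 5]] := ⟨_, rfl⟩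
  have e0 : ext T n L n = [p, q] := by
    rw [show ext T n L n = ext T n L (n + 0) from rfl, ext_add, hL]
    rfl
  have e1 : ext T n L (n + 1) = [p, q] := by
    rw [ext_add, hL]
    rfl
  have e2 : ext T n L (n + 2) = [n] := by
    rw [ext_add, hL]
    rfl
  have e3 : ext T n L (n + 3) = [p, q] := by
    rw [ext_add, hL]
    rfl
  have e4 : ext T n L (n + 4) = [n, n + 2] := by
    rw [ext_add, hL]
    rfl
  have e5 : ext T n L (n + 5) = [n + 1, n + 2] := by
    rw [ext_add, hL]
    rfl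
  have e6 : ext T n L (n + 6) = [n + 1, n + 2, n + 5] := by
    rw [ext_add, hL]
    rfl
  have hc : ∀ s : ℕ → Bool, cn s (n + 7) = cn s n + aN (s n) (s (n + 1)) (s (n + 2)) (s (n + 3)) (s (n + 4)) (s (n + 5)) (s (n + 6)) := by
    intro s
    have k0 := cn_succ s n
    have k1 := cn_succ s (n + 1)
    have k2 := cn_succ s (n + 2)
    have k3 := cn_succ s (n + 3)
    have k4 := cn_succ s (n + 4)
    have k5 := cn_succ s (n + 5)
    have k6 := cn_succ s (n + 6)
    simp only [Nat.add_assoc, Nat.reduceAdd] at k0 k1 k2 k3 k4 k5 k6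
    unfold aN
    omega
  have he : ∀ s : ℕ → Bool, en (ext T n L) s (n + 7) =
      en T s n + aE (s p) (s q) (s n) (s (n + 1)) (s (n + 2)) (s (n + 3)) (s (n + 4)) (s (n + 5)) (s (n + 6)) := by
    intro s
    have k0 := en_succ (ext T n L) s n
    have k1 := en_succ (ext T n L) s (n + 1)
    have k2 := en_succ (ext T n L) s (n + 2)
    have k3 := en_succ (ext T n L) s (n + 3)
    have k4 := en_succ (ext T n L) s (n + 4)
    have k5 := en_succ (ext T n L) s (n + 5)
    have k6 := en_succ (ext T n L) s (n + 6)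
    simp only [Nat.add_assoc, Nat.reduceAdd] at k0 k1 k2 k3 k4 k5 k6
    rw [k6, k5, k4, k3, k2, k1, k0, en_ext, e0, e1, e2, e3, e4, e5, e6]
    unfold aE
    simp only [ls]
    ring
  have hf : ∀ s : ℕ → Bool, _ := fun s => afact (s p) (s q) (s n) (s (n + 1)) (s (n + 2)) (s (n + 3)) (s (n + 4)) (s (n + 5)) (s (n + 6))
  refine ⟨ext T n L, n + 3, n + 4, ⟨by omega, by omega, by omega⟩, ?_, ?_, ?_⟩
  · intro x hx u hu
    rcases Nat.lt_or_ge x n with h | h
    · rw [ext_lt h] at hu
      exact h2 x h u hu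
    · obtain ⟨k, rfl⟩ : ∃ k, x = n + k := ⟨x - n, by omega⟩
      have hk : k < 7 := by omega
      interval_cases k
      · rw [Nat.add_zero, e0] at hu
        simp only [List.mem_cons, List.not_mem_nil, or_false] at hu
        omega
      all_goals
        first
          | rw [e1] at hu
          | rw [e2] at hu
          | rw [e3] at hu
          | rw [e4] at hu
          | rw [e5] at hu
          | rw [e6] at hu
        simp only [List.mem_cons, List.not_mem_nil, or_false] at hu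
        omega
  · intro s hs
    rw [hc] at hs ⊢
    rw [he]
    exact arithA t0 t1 v1 (hf s) (pre_of h1 h2 h3 s) hs
  · intro s hs
    rw [he] at hs
    rw [hc]
    have h5 := h4 s (by omega)
    have h6 := hf s
    have h8 : aE (s p) (s q) (s n) (s (n + 1)) (s (n + 2)) (s (n + 3)) (s (n + 4)) (s (n + 5)) (s (n + 6)) = 0 := by omega
    rw [h8] at h6
    clear hs he hc h8 hf e0 e1 e2 e3 e4 e5 e6
    obtain ⟨m, hm⟩ : ∃ m, m = aN (s n) (s (n + 1)) (s (n + 2)) (s (n + 3)) (s (n + 4)) (s (n + 5)) (s (n + 6)) := ⟨_, rfl⟩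
    rw [← hm] at h6 ⊢
    clear hm
    unfold factA at h6
    revert h5 h6
    cases s p <;> cases s q <;> cases s (n + 3) <;> cases s (n + 4) <;> simp <;> omega

theorem PC.last {ε v : ℝ} {n al : ℕ} (h : PC ε n al v) (t0 : 0 ≤ ε) (t1 : ε ≤ 1 / 11)
    (v0 : 1 - 9 * ε ≤ v) : K3S.Pc (2 + ε) (n + 9) (al + 3) := by
  obtain ⟨T, p, q, h1, h2, h3, h4⟩ := h
  obtain ⟨L, hL⟩ : ∃ L : List (List ℕ), L = [[p, q], [p, q], [n], [p, q], [n, n + 2], [n + 1, n + 2], [n + 1, n + 2, n + 5], [n + 3, n + 4], [n + 3, n + 4, n + 7]] := ⟨_, rfl⟩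
  have e0 : ext T n L n = [p, q] := by
    rw [show ext T n L n = ext T n L (n + 0) from rfl, ext_add, hL]
    rfl
  have e1 : ext T n L (n + 1) = [p, q] := by
    rw [ext_add, hL]
    rfl
  have e2 : ext T n L (n + 2) = [n] := by
    rw [ext_add, hL]
    rfl
  have e3 : ext T n L (n + 3) = [p, q] := by
    rw [ext_add, hL]
    rfl
  have e4 : ext T n L (n + 4) = [n, n + 2] := by
    rw [ext_add, hL]
    rfl
  have e5 : ext T n L (n + 5) = [n + 1, n + 2] := by
    rw [ext_add, hL]
    rfl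
  have e6 : ext T n L (n + 6) = [n + 1, n + 2, n + 5] := by
    rw [ext_add, hL]
    rfl
  have e7 : ext T n L (n + 7) = [n + 3, n + 4] := by
    rw [ext_add, hL]
    rfl
  have e8 : ext T n L (n + 8) = [n + 3, n + 4, n + 7] := by
    rw [ext_add, hL]
    rfl
  have hc : ∀ s : ℕ → Bool, cn s (n + 9) = cn s n + cN (s n) (s (n + 1)) (s (n + 2)) (s (n + 3)) (s (n + 4)) (s (n + 5)) (s (n + 6)) (s (n + 7)) (s (n + 8)) := by
    intro s
    have k0 := cn_succ s n
    have k1 := cn_succ s (n + 1)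
    have k2 := cn_succ s (n + 2)
    have k3 := cn_succ s (n + 3)
    have k4 := cn_succ s (n + 4)
    have k5 := cn_succ s (n + 5)
    have k6 := cn_succ s (n + 6)
    have k7 := cn_succ s (n + 7)
    have k8 := cn_succ s (n + 8)
    simp only [Nat.add_assoc, Nat.reduceAdd] at k0 k1 k2 k3 k4 k5 k6 k7 k8
    unfold cN
    omega
  have he : ∀ s : ℕ → Bool, en (ext T n L) s (n + 9) =
      en T s n + cE (s p) (s q) (s n) (s (n + 1)) (s (n + 2)) (s (n + 3)) (s (n + 4)) (s (n + 5)) (s (n + 6)) (s (n + 7)) (s (n + 8)) := by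
    intro s
    have k0 := en_succ (ext T n L) s n
    have k1 := en_succ (ext T n L) s (n + 1)
    have k2 := en_succ (ext T n L) s (n + 2)
    have k3 := en_succ (ext T n L) s (n + 3)
    have k4 := en_succ (ext T n L) s (n + 4)
    have k5 := en_succ (ext T n L) s (n + 5)
    have k6 := en_succ (ext T n L) s (n + 6)
    have k7 := en_succ (ext T n L) s (n + 7)
    have k8 := en_succ (ext T n L) s (n + 8)
    simp only [Nat.add_assoc, Nat.reduceAdd] at k0 k1 k2 k3 k4 k5 k6 k7 k8
    rw [k8, k7, k6, k5, k4, k3, k2, k1, k0, en_ext, e0, e1, e2, e3, e4, e5, e6, e7, e8]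
    unfold cE
    simp only [ls]
    ring
  have hf : ∀ s : ℕ → Bool, _ := fun s => cfact (s p) (s q) (s n) (s (n + 1)) (s (n + 2)) (s (n + 3)) (s (n + 4)) (s (n + 5)) (s (n + 6)) (s (n + 7)) (s (n + 8))
  refine pc_of (ext T n L) ?_ ?_ ?_
  · intro x hx u hu
    rcases Nat.lt_or_ge x n with h | h
    · rw [ext_lt h] at hu
      exact h2 x h u hu
    · obtain ⟨k, rfl⟩ : ∃ k, x = n + k := ⟨x - n, by omega⟩
      have hk : k < 9 := by omega
      interval_cases k
      · rw [Nat.add_zero, e0] at hu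
        simp only [List.mem_cons, List.not_mem_nil, or_false] at hu
        omega
      all_goals
        first
          | rw [e1] at hu
          | rw [e2] at hu
          | rw [e3] at hu
          | rw [e4] at hu
          | rw [e5] at hu
          | rw [e6] at hu
          | rw [e7] at hu
          | rw [e8] at hu
        simp only [List.mem_cons, List.not_mem_nil, or_false] at hu
        omega
  · intro s hs
    rw [hc] at hs ⊢
    rw [he]
    have := arithC t0 t1 v0 (hf s) (pre_of h1 h2 h3 s) hs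
    linarith
  · intro s hs
    rw [he] at hs
    rw [hc]
    have h5 := h4 s (by omega)
    have h6 := hf s
    have h8 : cE (s p) (s q) (s n) (s (n + 1)) (s (n + 2)) (s (n + 3)) (s (n + 4)) (s (n + 5)) (s (n + 6)) (s (n + 7)) (s (n + 8)) = 0 := by omega
    rw [h8] at h6
    clear hs he hc h8 hf e0 e1 e2 e3 e4 e5 e6 e7 e8
    obtain ⟨m, hm⟩ : ∃ m, m = cN (s n) (s (n + 1)) (s (n + 2)) (s (n + 3)) (s (n + 4)) (s (n + 5)) (s (n + 6)) (s (n + 7)) (s (n + 8)) := ⟨_, rfl⟩
    rw [← hm] at h6 ⊢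
    clear hm
    unfold factC at h6
    revert h5 h6
    cases s p <;> cases s q <;> simp <;> omega

end Pool.Agent.TwoDens.K4U
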