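import Pool.Agent.K4U.Arith
import Pool.Agent.K4U.FactB

/-!
Partial chains are extended by blocks.
-/

open Finset

namespace Pool.Agent.TwoDens.K4U

open Pool.Agent.TwoDens Pool.Agent.TwoDens.K3U

theorem PC.stepB {ε v : ℝ} {n al : ℕ} (h : PC ε n al v) (t0 : 0 ≤ ε) (t1 : ε ≤ 1 / 11)
    (v0 : 1 - 9 * ε ≤ v) (v1 : v ≤ 1 - 2 * ε) : PC ε (n + 11) (al + 3) (v - 1 + 11 * ε) := by
  obtain ⟨T, p, q, h1, h2, h3, h4⟩ := h
  obtain ⟨L, hL⟩ : ∃ L : List (List ℕ), L = [[q], [p, q, n], [p, q], [n, n + 1], [p], [n + 4, p], [n + 4, n + 5, n], [n + 4, n + 5], [n + 6, n], [n + 7, n + 8], [n + 7, n + 8, n + 9]] := ⟨_, rfl⟩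
  have e0 : ext T n L n = [q] := by
    rw [show ext T n L n = ext T n L (n + 0) from rfl, ext_add, hL]
    rfl
  have e1 : ext T n L (n + 1) = [p, q, n] := by
    rw [ext_add, hL]
    rfl
  have e2 : ext T n L (n + 2) = [p, q] := by
    rw [ext_add, hL]
    rfl
  have e3 : ext T n L (n + 3) = [n, n + 1] := by
    rw [ext_add, hL]
    rfl
  have e4 : ext T n L (n + 4) = [p] := by
    rw [ext_add, hL]
    rfl
  have e5 : ext T n L (n + 5) = [n + 4, p] := by
    rw [ext_add, hL]
    rfl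
  have e6 : ext T n L (n + 6) = [n + 4, n + 5, n] := by
    rw [ext_add, hL]
    rfl
  have e7 : ext T n L (n + 7) = [n + 4, n + 5] := by
    rw [ext_add, hL]
    rfl
  have e8 : ext T n L (n + 8) = [n + 6, n] := by
    rw [ext_add, hL]
    rfl
  have e9 : ext T n L (n + 9) = [n + 7, n + 8] := by
    rw [ext_add, hL]
    rfl
  have e10 : ext T n L (n + 10) = [n + 7, n + 8, n + 9] := by
    rw [ext_add, hL]
    rfl
  have hc : ∀ s : ℕ → Bool, cn s (n + 11) = cn s n + bN (s n) (s (n + 1)) (s (n + 2)) (s (n + 3)) (s (n + 4)) (s (n + 5)) (s (n + 6)) (s (n + 7)) (s (n + 8)) (s (n + 9)) (s (n + 10)) := by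
    intro s
    have k0 := cn_succ s n
    have k1 := cn_succ s (n + 1)
    have k2 := cn_succ s (n + 2)
    have k3 := cn_succ s (n + 3)
    have k4 := cn_succ s (n + 4)
    have k5 := cn_succ s (n + 5)
    have k6 := cn_succ s (n + 6)
    have k7 := cn_succ s (n + 7)
    have k8 := cn_succ s (n + 8)
    have k9 := cn_succ s (n + 9)
    have k10 := cn_succ s (n + 10)
    simp only [Nat.add_assoc, Nat.reduceAdd] at k0 k1 k2 k3 k4 k5 k6 k7 k8 k9 k10
    unfold bN
    omega
  have he : ∀ s : ℕ → Bool, en (ext T n L) s (n + 11) =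
      en T s n + bE (s p) (s q) (s n) (s (n + 1)) (s (n + 2)) (s (n + 3)) (s (n + 4)) (s (n + 5)) (s (n + 6)) (s (n + 7)) (s (n + 8)) (s (n + 9)) (s (n + 10)) := by
    intro s
    have k0 := en_succ (ext T n L) s n
    have k1 := en_succ (ext T n L) s (n + 1)
    have k2 := en_succ (ext T n L) s (n + 2)
    have k3 := en_succ (ext T n L) s (n + 3)
    have k4 := en_succ (ext T n L) s (n + 4)
    have k5 := en_succ (ext T n L) s (n + 5)
    have k6 := en_succ (ext T n L) s (n + 6)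
    have k7 := en_succ (ext T n L) s (n + 7)
    have k8 := en_succ (ext T n L) s (n + 8)
    have k9 := en_succ (ext T n L) s (n + 9)
    have k10 := en_succ (ext T n L) s (n + 10)
    simp only [Nat.add_assoc, Nat.reduceAdd] at k0 k1 k2 k3 k4 k5 k6 k7 k8 k9 k10
    rw [k10, k9, k8, k7, k6, k5, k4, k3, k2, k1, k0, en_ext, e0, e1, e2, e3, e4, e5, e6, e7, e8, e9, e10]
    unfold bE
    simp only [ls]
    ring
  have hf : ∀ s : ℕ → Bool, _ := fun s => bfact (s p) (s q) (s n) (s (n + 1)) (s (n + 2)) (s (n + 3)) (s (n + 4)) (s (n + 5)) (s (n + 6)) (s (n + 7)) (s (n + 8)) (s (n + 9)) (s (n + 10))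
  refine ⟨ext T n L, n + 2, n + 3, ⟨by omega, by omega, by omega⟩, ?_, ?_, ?_⟩
  · intro x hx u hu
    rcases Nat.lt_or_ge x n with h | h
    · rw [ext_lt h] at hu
      exact h2 x h u hu
    · obtain ⟨k, rfl⟩ : ∃ k, x = n + k := ⟨x - n, by omega⟩
      have hk : k < 11 := by omega
      interval_cases k
      · rw [Nat.add_zero, e0] at hu
        simp only [List.mem_cons, List.not_mem_nil, or_false] at hu
        omega
      all_goals
        first
          | rw [e1] at hu
          | rw [e2] at hu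
          | rw [e3] at hu
          | rw [e4] at hu
          | rw [e5] at hu
          | rw [e6] at hu
          | rw [e7] at hu
          | rw [e8] at hu
          | rw [e9] at hu
          | rw [e10] at hu
        simp only [List.mem_cons, List.not_mem_nil, or_false] at hu
        omega
  · intro s hs
    rw [hc] at hs ⊢
    rw [he]
    exact arithB t0 t1 v0 v1 (hf s) (pre_of h1 h2 h3 s) hs
  · intro s hs
    rw [he] at hs
    rw [hc]
    have h5 := h4 s (by omega)
    have h6 := hf s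
    have h8 : bE (s p) (s q) (s n) (s (n + 1)) (s (n + 2)) (s (n + 3)) (s (n + 4)) (s (n + 5)) (s (n + 6)) (s (n + 7)) (s (n + 8)) (s (n + 9)) (s (n + 10)) = 0 := by omega
    rw [h8] at h6
    clear hs he hc h8 hf e0 e1 e2 e3 e4 e5 e6 e7 e8 e9 e10
    obtain ⟨m, hm⟩ : ∃ m, m = bN (s n) (s (n + 1)) (s (n + 2)) (s (n + 3)) (s (n + 4)) (s (n + 5)) (s (n + 6)) (s (n + 7)) (s (n + 8)) (s (n + 9)) (s (n + 10)) := ⟨_, rfl⟩
    rw [← hm] at h6 ⊢
    clear hm
    unfold factB at h6
    revert h5 h6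
    cases s p <;> cases s q <;> cases s (n + 2) <;> cases s (n + 3) <;> simp <;> omega

end Pool.Agent.TwoDens.K4U
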