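import Pool.Agent.K4U.Step
import Pool.Agent.K4U.StepB

/-!
The chains of cliques of sizes four and five for all pairs `(s, i)` with `s < 2 i`, `3 i < 2 s`:
graphs with `3 s + i` vertices and independence number at most `s`.
-/

open Finset

namespace Pool.Agent.TwoDens.K4U

open Pool.Agent.TwoDens Pool.Agent.TwoDens.K3U

theorem PC.start {ε : ℝ} : PC ε 2 0 0 := by
  have hc : ∀ s : ℕ → Bool, cn s 2 = (s 0).toNat + (s 1).toNat := by
    intro s
    unfold cn
    simp [sum_range_succ]
  have he : ∀ s : ℕ → Bool, en (fun x => if x = 1 then [0] else []) s 2 =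
      (s 1).toNat * (s 0).toNat := by
    intro s
    unfold en
    simp [sum_range_succ, ls]
  refine ⟨fun x => if x = 1 then [0] else [], 0, 1, ⟨by omega, by omega, by omega⟩, ?_, ?_, ?_⟩
  · intro x hx u hu
    have hx' : x = 0 ∨ x = 1 := by omega
    rcases hx' with rfl | rfl <;> simp at hu
    omega
  · intro s hs
    rw [hc] at hs ⊢
    rw [he]
    unfold Inv
    clear hc he
    revert hs
    cases s 0 <;> cases s 1 <;> simp only [Bool.toNat_true, Bool.toNat_false] <;> intro hs <;>
      first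
        | (exfalso; omega)
        | (push_cast
           exact ⟨by linarith, fun _ _ => by linarith⟩)
  · intro s hs
    rw [he] at hs
    rw [hc]
    clear hc he
    revert hs
    cases s 0 <;> cases s 1 <;> simp

/-- the walk along the chain -/
theorem walk {A E : ℕ} (hA : 1 ≤ A) (hE : 1 ≤ E) {ε M : ℝ} (hM : M = 7 * (A : ℝ) + 11 * E - 2)
    (hε : ε = (E : ℝ) / M) : ∀ t, t + 2 ≤ A + E →
    ∃ a c V : ℕ, a + c = t + 1 ∧ a ≤ A ∧ c + 1 ≤ E ∧ V + (7 * A - 2) * c = 7 * E * a ∧
      V + 2 ≤ 7 * A + 9 * E ∧ PC ε (2 + 7 * a + 11 * c) (2 * a + 3 * c) ((V : ℝ) / M) := by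
  have hAR : (1 : ℝ) ≤ A := by exact_mod_cast hA
  have hER : (1 : ℝ) ≤ E := by exact_mod_cast hE
  have hMpos : 0 < M := by
    rw [hM]
    linarith
  have hεM : ε * M = E := by
    rw [hε]
    exact div_mul_cancel₀ _ hMpos.ne'
  have t0 : 0 ≤ ε := by
    rw [hε]
    exact div_nonneg (by linarith) hMpos.le
  have t1 : ε ≤ 1 / 11 := by
    rw [hε, div_le_div_iff₀ hMpos (by norm_num), hM]
    linarith
  have q1 : 1 - 9 * ε = (7 * (A : ℝ) + 2 * E - 2) / M := by
    rw [eq_div_iff hMpos.ne', sub_mul, mul_assoc, hεM, hM]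
    ring
  have q2 : 1 - 2 * ε = (7 * (A : ℝ) + 9 * E - 2) / M := by
    rw [eq_div_iff hMpos.ne', sub_mul, mul_assoc, hεM, hM]
    ring
  intro t
  induction t with
  | zero =>
    intro _
    refine ⟨1, 0, 7 * E, rfl, hA, by omega, by ring, by omega, ?_⟩
    have h := (PC.start (ε := ε)).stepA t0 t1 (by
      rw [q1]
      exact div_nonneg (by linarith) hMpos.le)
    refine h.congr (by omega) (by omega) ?_
    rw [eq_div_iff hMpos.ne', zero_add, mul_assoc, hεM]
    push_cast
    ring
  | succ t ih =>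
    intro ht
    obtain ⟨a, c, V, h1, h2, h3, h4, h6, h7⟩ := ih (by omega)
    obtain ⟨A', hA'⟩ : ∃ A', A' = 7 * A - 2 := ⟨_, rfl⟩
    have hA2 : A' + 2 = 7 * A := by omega
    rw [← hA'] at h4 ⊢
    have v2 : (V : ℝ) / M ≤ 1 - 2 * ε := by
      rw [q2]
      refine div_le_div_of_nonneg_right ?_ hMpos.le
      have : (V : ℝ) + 2 ≤ 7 * A + 9 * E := by exact_mod_cast h6
      linarith
    rcases Nat.lt_or_ge V (A' + 2 * E) with hV | hV
    · -- first kind
      have ha : a < A := by
        by_contra hcon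
        have hh : a = A := by omega
        rw [hh] at h4
        have g1 : A' * c + A' ≤ A' * E := by
          have : A' * (c + 1) ≤ A' * E := Nat.mul_le_mul_left _ h3
          rw [mul_add, mul_one] at this
          exact this
        have g2 : A' * E + 2 * E = 7 * E * A := by
          have : (A' + 2) * E = 7 * A * E := by rw [hA2]
          rw [add_mul] at this
          rw [this]
          ring
        omega
      refine ⟨a + 1, c, V + 7 * E, by omega, ha, h3, ?_, by omega, ?_⟩
      · have : 7 * E * (a + 1) = 7 * E * a + 7 * E := by ring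
        omega
      · refine (h7.stepA t0 t1 ?_).congr (by omega) (by omega) ?_
        · rw [q1]
          refine div_le_div_of_nonneg_right ?_ hMpos.le
          have g3 : V + 2 ≤ 7 * A + 2 * E := by omega
          have : (V : ℝ) + 2 ≤ 7 * A + 2 * E := by exact_mod_cast g3
          linarith
        · rw [eq_div_iff hMpos.ne', add_mul, div_mul_cancel₀ _ hMpos.ne', mul_assoc, hεM]
          push_cast
          ring
    · -- second kind
      have hc : c + 1 < E := by
        by_contra hcon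
        have hh : E = c + 1 := by omega
        have ha : a < A := by omega
        have g2 : A' * E + 2 * E = 7 * E * A := by
          have : (A' + 2) * E = 7 * A * E := by rw [hA2]
          rw [add_mul] at this
          rw [this]
          ring
        have g3 : A' * E = A' * c + A' := by rw [hh, mul_add, mul_one]
        have g4 : 7 * E * (a + 1) ≤ 7 * E * A := Nat.mul_le_mul_left _ ha
        have g5 : 7 * E * (a + 1) = 7 * E * a + 7 * E := by ring
        omega
      obtain ⟨V', hV'⟩ : ∃ V', V = V' + A' := ⟨V - A', by omega⟩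
      refine ⟨a, c + 1, V', by omega, h2, hc, ?_, by omega, ?_⟩
      · have : A' * (c + 1) = A' * c + A' := by ring
        omega
      · refine (h7.stepB t0 t1 ?_ v2).congr (by omega) (by omega) ?_
        · rw [q1]
          refine div_le_div_of_nonneg_right ?_ hMpos.le
          have g3 : 7 * A + 2 * E ≤ V + 2 := by omega
          have : 7 * (A : ℝ) + 2 * E ≤ V + 2 := by exact_mod_cast g3
          linarith
        · have g6 : (A' : ℝ) + 2 = 7 * A := by exact_mod_cast hA2
          rw [eq_div_iff hMpos.ne', add_mul, sub_mul, div_mul_cancel₀ _ hMpos.ne', mul_assoc, hεM,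
            hM, hV']
          push_cast
          linarith

theorem piece' {A E : ℕ} (hA : 1 ≤ A) (hE : 1 ≤ E) :
    K3S.Pc (2 + (E : ℝ) / (7 * (A : ℝ) + 11 * E - 2)) (7 * A + 11 * E) (2 * A + 3 * E) := by
  obtain ⟨M, hM⟩ : ∃ M : ℝ, M = 7 * (A : ℝ) + 11 * E - 2 := ⟨_, rfl⟩
  obtain ⟨ε, hε⟩ : ∃ ε : ℝ, ε = (E : ℝ) / M := ⟨_, rfl⟩
  have hAR : (1 : ℝ) ≤ A := by exact_mod_cast hA
  have hER : (1 : ℝ) ≤ E := by exact_mod_cast hE
  have hMpos : 0 < M := by
    rw [hM]
    linarith
  have hεM : ε * M = E := by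
    rw [hε]
    exact div_mul_cancel₀ _ hMpos.ne'
  have t0 : 0 ≤ ε := by
    rw [hε]
    exact div_nonneg (by linarith) hMpos.le
  have t1 : ε ≤ 1 / 11 := by
    rw [hε, div_le_div_iff₀ hMpos (by norm_num), hM]
    linarith
  obtain ⟨a, c, V, h1, h2, h3, h4, _, h7⟩ := walk hA hE hM hε (A + E - 2) (by omega)
  have ha : a = A := by omega
  have hc : E = c + 1 := by omega
  have hV : 7 * A + 2 * E = V + 2 := by
    rw [ha] at h4
    obtain ⟨A', hA'⟩ : ∃ A', A' = 7 * A - 2 := ⟨_, rfl⟩
    have hA2 : A' + 2 = 7 * A := by omega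
    rw [← hA'] at h4
    have g2 : A' * E + 2 * E = 7 * E * A := by
      have : (A' + 2) * E = 7 * A * E := by rw [hA2]
      rw [add_mul] at this
      rw [this]
      ring
    have g3 : A' * E = A' * c + A' := by rw [hc, mul_add, mul_one]
    omega
  have h8 := h7.last t0 t1 (by
    rw [le_div_iff₀ hMpos, sub_mul, mul_assoc, hεM, hM]
    have : 7 * (A : ℝ) + 2 * E = V + 2 := by exact_mod_cast hV
    linarith)
  have e1 : 2 + 7 * a + 11 * c + 9 = 7 * A + 11 * E := by omega
  have e2 : 2 * a + 3 * c + 3 = 2 * A + 3 * E := by omega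
  rw [e1, e2, hε, hM] at h8
  exact h8

/-- the graph -/
theorem piece (s i : ℕ) (h1 : s < 2 * i) (h2 : 3 * i < 2 * s) :
    K3S.Pc ((5 * (s : ℝ) + 4 * i - 4) / (3 * (s : ℝ) + i - 2)) (3 * s + i) s := by
  obtain ⟨A, hA⟩ : ∃ A, 2 * s = 3 * i + A := ⟨2 * s - 3 * i, by omega⟩
  obtain ⟨E, hE⟩ : ∃ E, 2 * i = s + E := ⟨2 * i - s, by omega⟩
  have hs : s = 2 * A + 3 * E := by omega
  have hi : i = A + 2 * E := by omega
  have hA1 : 1 ≤ A := by omega
  have hE1 : 1 ≤ E := by omega
  have h := piece' hA1 hE1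
  have hAR : (1 : ℝ) ≤ A := by exact_mod_cast hA1
  have hER : (1 : ℝ) ≤ E := by exact_mod_cast hE1
  have hMpos : 0 < 7 * (A : ℝ) + 11 * E - 2 := by linarith
  have e1 : (5 * (s : ℝ) + 4 * i - 4) / (3 * (s : ℝ) + i - 2) =
      2 + (E : ℝ) / (7 * (A : ℝ) + 11 * E - 2) := by
    have e3 : 3 * (s : ℝ) + i - 2 = 7 * (A : ℝ) + 11 * E - 2 := by
      rw [hs, hi]
      push_cast
      ring
    have e4 : 5 * (s : ℝ) + 4 * i - 4 = 2 * (7 * (A : ℝ) + 11 * E - 2) + E := by
      rw [hs, hi]
      push_cast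
      ring
    rw [e3, e4, add_div, mul_div_assoc, div_self hMpos.ne', mul_one]
  have e2 : 3 * s + i = 7 * A + 11 * E := by omega
  rw [e1, e2, hs]
  exact h

/-- the upper bound -/
theorem upper (s i : ℕ) (h1 : s < 2 * i) (h2 : 3 * i < 2 * s) :
    minTwoDensity (3 * s + i) (s + 1) ≤
      (5 * (s : ℝ) + 4 * i - 4) / (3 * (s : ℝ) + i - 2) := by
  have h3 : (1 : ℝ) ≤ i := by
    have : 1 ≤ i := by omega
    exact_mod_cast this
  have h4 : (1 : ℝ) ≤ s := by
    have : 1 ≤ s := by omega
    exact_mod_cast this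
  exact (piece s i h1 h2).min (r := s + 1) (m := 3 * s + i)
    (div_nonneg (by linarith) (by linarith)) le_rfl (Nat.lt_succ_self _)

end Pool.Agent.TwoDens.K4U
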